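import Pool.Agent.Helper4.AXG.G63
import Pool.Agent.Helper4.AXG.G64
import Pool.Agent.Helper4.AXG.G61
import Pool.Agent.Helper4.AXG.G50


set_option autoImplicit false

namespace Pool.Agent.Results.MP_0b9e0b_ag.ArtinSchreierProducts

open Pool.Agent.Helper1.KA Pool.Agent.Helper68.KA Pool.Agent.Helper79.KA Pool.Agent.Helper17.KA

/-- Let `k` be a field of characteristic `p`, `a ≥ 2` not divisible by `p`, `c i` nonzero elements
of `k`, `K = k(t)`, `C i` the curve `y ^ p - y = t c_i x ^ a + x` over `K` with one point at
infinity, and `X` the product of the `n` curves `C i`. The curves `C i` are smooth. For every `r`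
the dimension of the Chow group of cycles of dimension `r` on `X` with rational coefficients is at
most `C(n, r)` plus the sum of the dimensions of the groups `CHY a c τ r` over the `τ = (I, ρ)`,
`I` a set of indices, `ρ` a function on `I` with values in `F_p` which is not zero: `CHY a c τ r`
is the Chow group of cycles of dimension `r` on the variety `Y` over `k` of the points `x` with
coordinates `x i`, `i ∈ I`, such that `∑ ρ_i c_i x_i ^ a = 0` and `∑ ρ_i x_i = 0`, modulo the
divisors of the function `∑ ρ_i x_i` on the subvarieties of `∑ ρ_i c_i x_i ^ a = 0`. The Chow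
group of zero-cycles has dimension `1 + n (p - 1)`. If `k` is a finite field with `q` elements then
`n (p - 1)` is the order at `T = 1 / q` of a polynomial `L` with `IsL p a c L`, and the dimension
of the Chow group of cycles of dimension one is bounded in terms of the order at `T = 1 / q ^ 2` of
a power series `L` with `IsL1 p a c L`, see `ExplicitOne`. -/
theorem result (k : Type) [Field k] (p a : ℕ) [Fact p.Prime] [CharP k p] (ha : 2 ≤ a)
    (hpa : ¬ p ∣ a) (n : ℕ) (c : Fin n → k) (hc : ∀ i, c i ≠ 0) :
    (∀ i, SmoothCurve p a (RatFunc.X : RatFunc k) (RatFunc.C (c i))) ∧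
      (∀ r, Main k p a n c r) ∧
      Module.rank ℚ (CHX p a c 0) = ((1 + n * (p - 1) : ℕ) : Cardinal) ∧
      (Finite k → (∃ L : Polynomial ℚ, IsL p a c (L : PowerSeries ℚ) ∧
        L.rootMultiplicity ((Nat.card k : ℚ)⁻¹) = n * (p - 1)) ∧ ExplicitOne p a c) := by
  have ha0 : a ≠ 0 := by omega
  exact ⟨fun i => smoothCurve_ratFunc p a ha hpa (hc i), fun r => ka_main k p a ha n c hc r,
    Pool.Agent.Helper1.KE.rank_zero_eq k p a ha hpa n c hc,
    fun _ => ⟨exists_L (p := p) ha0 hc, explicit_one ha hpa hc⟩⟩

end Pool.Agent.Results.MP_0b9e0b_ag.ArtinSchreierProducts
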