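import Pool.Agent.JS.Final

set_option autoImplicit false

namespace Pool.Agent.Results.MP_0b9e0b_ag.DworkPencils

open Pool.Agent.HC Pool.Agent.Helper17.JS

/-- Let `k` be a finite field of characteristic `p`, `m` prime to `p`, `N ≥ 4`, `e j` natural
numbers with sum `m`, `J` the number of the `j` with `e j > 0`, `a j` nonzero elements of `k`, and
`g` an arbitrary form over `k` of degree `m - J`. Let `X` be the hypersurface of degree `m` in
`P^N` over `K = k(t)` with equation `∏ x_j ^ (e j) + t (∑ a_j x_j ^ m + g ∏ x_j) = 0`, where the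
last product is over the `j` with `e j > 0`. If `J = 1` or `g = 0`, then `X` is smooth. Let
`r ≤ N - 3`, so that cycles of dimension `r` on `X` have codimension `i = N - 1 - r ≥ 2`.
If `2 r + 2` is not `N`, that is if `i` is not `N / 2`, then `CH_r(X)` with rational coefficients
has dimension at most one.
In all cases let `e l > 0`, and let `c j` be bounds for the dimension of `CH_r(V_j)`, where `V_j` is
the variety `x_j = ∑ a_i x_i ^ m = 0` over `k`, for `j` different from `l` modulo the cycles in
`x_l = 0`. Then the dimension of `CH_r(X)` is at most the sum of the `c j` with `e j > 0`.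
If `m` divides `q + 1`, `q = p ^ f`, and `i = N / 2`, the dimension of `CH_r(X)` is at most
`1 + J (q ^ N + q) / (q + 1)`. If moreover `m = q + 1`, `a_j = 1` for all `j` and `#k` is a
power of `q ^ 2`, then `J (q ^ N + q) / (q + 1)` is the order of the polynomial `L` at
`T = (#k)^(-i)`, where `L` is given by the numbers of points of the members `X_t`, `t ≠ 0`, of
the pencil. -/
theorem result (k : Type) [Field k] [Finite k] (p m N : ℕ) (hp : p.Prime) [CharP k p]
    (hm : ¬ p ∣ m) (hN : 4 ≤ N) (e : Fin (N + 1) → ℕ) (he : ∑ j, e j = m)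
    (a : Fin (N + 1) → k) (ha : ∀ j, a j ≠ 0) (g : MvPolynomial (Fin (N + 1)) k)
    (hg : g.IsHomogeneous (m - (Finset.univ.filter fun j => e j ≠ 0).card)) (r : ℕ)
    (hr : r + 3 ≤ N) :
    (g = 0 ∨ (Finset.univ.filter fun j => e j ≠ 0).card = 1 → IsSmoothHyp (eqG e a g)) ∧
      (2 * r + 2 ≠ N → dimCH {eqG e a g} r ≤ 1) ∧
      (∀ l, e l ≠ 0 → ∀ c : Fin (N + 1) → ℕ,
        (∀ j, e j ≠ 0 → dimMod {MvPolynomial.X j, diagForm a m}
          (if j = l then 1 else MvPolynomial.X l) r ≤ (c j : Cardinal)) →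
        dimCH {eqG e a g} r ≤ ((∑ j with e j ≠ 0, c j : ℕ) : Cardinal)) ∧
      ∀ f : ℕ, f ≠ 0 → m ∣ p ^ f + 1 → ChowBoundG e a g (p ^ f) r :=
  Pool.Agent.JS.final_JS k p m N hp hm hN e he a ha g hg r hr

end Pool.Agent.Results.MP_0b9e0b_ag.DworkPencils
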