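import Pool.Agent.Helper16.PRG.G53

set_option autoImplicit false

namespace Pool.Agent.Results.MP_0b9e0b_ag.PicardRankBound

open Pool.Agent.Helper16.BB Pool.Agent.Helper16.GT

/-- Let `k` be a finite field, `K = k(t)`, `X` a closed subvariety of a projective space over `K`
(irreducible, of any dimension, regular in codimension one), given by homogeneous equations `I`,
with a generic point `ξ` over `L(s)`, where `L` is an extension field of `k`, `K` is embedded into
`L(s)` over `k` by `j`, and `t` is not in `L`. Then `A_0(X) ⊗ ℚ` is finite-dimensional, and its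
dimension is at most the rank of the group of numerically trivial divisors on `X` modulo principal
divisors. -/
theorem result (k : Type) [Field k] [Finite k] (σ : Type) [Finite σ]
    (I : Set (MvPolynomial σ (RatFunc k))) (hI : ∀ P ∈ I, ∃ d, P.IsHomogeneous d)
    (hpr : (Ideal.span I).IsPrime) (hreg : RegOne (Ideal.span I))
    (L : Type) [Field L] [Algebra k L] (j : RatFunc k →ₐ[k] RatFunc L)
    (hj : j RatFunc.X ∉ Set.range (algebraMap L (RatFunc L)))
    (ξ : σ → RatFunc L) (hξ : ξ ≠ 0)
    (hξI : ∀ P ∈ I, MvPolynomial.eval₂ (j : RatFunc k →+* RatFunc L) ξ P = 0)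
    (hgen : ∀ (d : ℕ) (P : MvPolynomial σ (RatFunc k)), P.IsHomogeneous d →
      MvPolynomial.eval₂ (j : RatFunc k →+* RatFunc L) ξ P = 0 → P ∈ Ideal.span I) :
    Module.Finite ℚ (A0 (wOne σ) I) ∧ dimA0 (wOne σ) I ≤ rankNT (Ideal.span I) := by
  refine ⟨?_, Pool.Agent.TT.target k σ I hI hpr hreg L j hj ξ hξ hξI hgen⟩
  let _ : Algebra (RatFunc k) (RatFunc L) := (j : RatFunc k →+* RatFunc L).toAlgebra
  have : IsScalarTower k (RatFunc k) (RatFunc L) :=
    IsScalarTower.of_algebraMap_eq fun a => (j.commutes a).symm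
  refine (Pool.Agent.ThF.main hI (L := L) hj ξ
    ((isPoint_wOne I ξ).2 ⟨hξ, hξI⟩) ?_).1
  rintro P ⟨d, hd⟩ hP x hx
  have h4 : P ∈ Ideal.span I := hgen d P hd hP
  have h5 : Ideal.span I ≤ RingHom.ker (MvPolynomial.aeval x :
      MvPolynomial σ (RatFunc k) →ₐ[RatFunc k] AlgebraicClosure (RatFunc k)).toRingHom := by
    rw [Ideal.span_le]
    intro Q hQ
    exact hx.2 Q hQ
  exact h5 h4

end Pool.Agent.Results.MP_0b9e0b_ag.PicardRankBound
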